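import Pool.Agent.helper54.TS.Spec

/-!
# Row EVP of project TS (tails of eventually periodic sequences)
-/

set_option autoImplicit false

open Polynomial Finset

noncomputable section

namespace Pool.Agent.TS

open Pool.Agent.PSA (IsSalem Indep Fac)

/-- Unfolding of the tail. -/
theorem EVP_unfold (z : ℝ) (b : ℕ → ℝ) (h : ∀ n, tl z b n = z * (b n + tl z b (n + 1))) :
    ∀ (m n : ℕ), tl z b n = ∑ l ∈ range m, z ^ (l + 1) * b (n + l) + z ^ m * tl z b (n + m) := by
  intro m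
  induction m with
  | zero => intro n; simp
  | succ m ih =>
    intro n
    rw [Finset.sum_range_succ, ih n, h (n + m)]
    rw [show n + (m + 1) = n + m + 1 by ring]
    ring

/-- Every value of an eventually periodic sequence occurs early. -/
theorem EVP_early {α : Type} (x : ℕ → α) (N P : ℕ) (hP : 0 < P) (h : ∀ n, N ≤ n → x (n + P) = x n) :
    ∀ n, ∃ m, m < N + P ∧ x n = x m := by
  intro n
  induction n using Nat.strong_induction_on with
  | _ n ih =>
    by_cases hn : n < N + P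
    · exact ⟨n, hn, rfl⟩
    · have h1 : N ≤ n - P := by omega
      obtain ⟨m, hm, hx⟩ := ih (n - P) (by omega)
      refine ⟨m, hm, ?_⟩
      rw [← hx, ← h (n - P) h1]
      congr 1
      omega

theorem EVP (hTLR : TLR_stmt) : EVP_stmt := by
  intro K _ ι β hβ a N P hP ha
  have hz0 : 0 < (ι β)⁻¹ := inv_pos.2 (lt_trans one_pos hβ)
  have hz1 : (ι β)⁻¹ < 1 := inv_lt_one_of_one_lt₀ hβ
  have hb : ∀ n, |ι (a n)| ≤ ∑ m ∈ range (N + P), |ι (a m)| := by
    intro n
    obtain ⟨m, hm, hx⟩ := EVP_early a N P hP ha n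
    rw [hx]
    exact Finset.single_le_sum (f := fun m => |ι (a m)|) (fun i _ => abs_nonneg _) (Finset.mem_range.2 hm)
  obtain ⟨h1, -⟩ := hTLR (ι β)⁻¹ (∑ m ∈ range (N + P), |ι (a m)|) (fun m => ι (a m)) hz0 hz1 hb
  have hun := EVP_unfold (ι β)⁻¹ (fun m => ι (a m)) h1
  have hper : ∀ n, N ≤ n → tl (ι β)⁻¹ (fun m => ι (a m)) (n + P) = tl (ι β)⁻¹ (fun m => ι (a m)) n := by
    intro n hn
    unfold tl
    congr 1
    funext l
    have h2 : a (n + P + l) = a (n + l) := by
      rw [show n + P + l = n + l + P by ring]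
      exact ha (n + l) (by omega)
    simp only [h2]
  have hp1 : (1 : ℝ) - (ι β)⁻¹ ^ P ≠ 0 := by
    have : (ι β)⁻¹ ^ P < 1 := pow_lt_one₀ hz0.le hz1 hP.ne'
    linarith
  have hex1 : ∀ n, N ≤ n → ∃ x : K, ι x = tl (ι β)⁻¹ (fun m => ι (a m)) n := by
    intro n hn
    refine ⟨(∑ l ∈ range P, β⁻¹ ^ (l + 1) * a (n + l)) / (1 - β⁻¹ ^ P), ?_⟩
    have h3 := hun P n
    rw [hper n hn] at h3
    simp only [map_div₀, map_sum, map_mul, map_pow, map_inv₀, map_sub, map_one]
    rw [div_eq_iff hp1]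
    linarith
  have hex : ∀ n, ∃ x : K, ι x = tl (ι β)⁻¹ (fun m => ι (a m)) n := by
    intro n
    by_cases hn : N ≤ n
    · exact hex1 n hn
    · obtain ⟨y, hy⟩ := hex1 N le_rfl
      refine ⟨∑ l ∈ range (N - n), β⁻¹ ^ (l + 1) * a (n + l) + β⁻¹ ^ (N - n) * y, ?_⟩
      rw [hun (N - n) n, show n + (N - n) = N by omega, ← hy]
      simp only [map_add, map_sum, map_mul, map_pow, map_inv₀]
  choose x hx using hex
  refine ⟨x, hx, ?_⟩
  have hxper : ∀ n, N ≤ n → x (n + P) = x n := by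
    intro n hn
    apply ι.injective
    rw [hx, hx, hper n hn]
  have hsub : Set.range x ⊆ x '' (Set.Iio (N + P)) := by
    rintro _ ⟨n, rfl⟩
    obtain ⟨m, hm, hxm⟩ := EVP_early x N P hP hxper n
    exact ⟨m, hm, hxm.symm⟩
  exact ((Set.finite_Iio (N + P)).image x).subset hsub

end Pool.Agent.TS
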