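import Pool.Agent.helper54.TS.Spec

/-!
# Row GDP of project TS (being good depends on the class modulo the period)
-/

set_option autoImplicit false

open Polynomial Finset

noncomputable section

namespace Pool.Agent.TS

open Pool.Agent.PSA (IsSalem Indep Fac)

/-- Periodic functions at a multiple of the period. -/
theorem GDP_per {α : Type} (f : ℕ → α) (p : ℕ) (hf : ∀ n, f (n + p) = f n) : ∀ m n, f (n + m * p) = f n := by
  intro m
  induction m with
  | zero => intro n; simp
  | succ m ih =>
    intro n
    rw [show n + (m + 1) * p = n + m * p + p by ring, hf, ih]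

theorem GDP_step (hORP : ORP_stmt) {K : Type} [Field K] {ι : K →+* ℝ} {β : K} {p : ℕ} {b κ θ : ℕ → ℝ}
    (hS : Sys ι β p b κ θ) (m j : ℕ) : Good b κ θ (j + m * p) ↔ Good b κ θ j := by
  obtain ⟨-, h2, -⟩ := hORP p b κ θ hS.pb hS.pk hS.pt
  have hk : κ (j + m * p) = κ j := GDP_per κ p hS.pk m j
  have ht : θ (j + m * p) = θ j := GDP_per θ p hS.pt m j
  have ho : ∀ x, orb b κ θ (j + m * p) x = orb b κ θ j x := by
    intro x
    have h3 : ∀ n, (fun i => orb b κ θ i x) (n + p) = (fun i => orb b κ θ i x) n := by
      intro n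
      funext r
      exact h2 n x r
    exact GDP_per (fun i => orb b κ θ i x) p h3 m j
  unfold Good St
  simp only [hk, ht, ho]

theorem GDP (hORP : ORP_stmt) : GDP_stmt := by
  intro K _ ι β p b κ θ hS j j' hj hG
  have h1 : j % p + j / p * p = j := by
    have := Nat.mod_add_div j p
    rw [Nat.mul_comm] at this
    exact this
  have h2 : j' % p + j' / p * p = j' := by
    have := Nat.mod_add_div j' p
    rw [Nat.mul_comm] at this
    exact this
  rw [← h2, GDP_step hORP hS, ← hj]
  rw [← h1, GDP_step hORP hS] at hG
  exact hG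

end Pool.Agent.TS
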